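import Pool.Agent.Q35.EO.Stm

/-!
Project EO, job ST, part 1: doubling for the boxes `bxg`.
-/

set_option autoImplicit false

namespace Pool.Agent.Q26.EO

open Finset Function NumberField
open Pool.Agent.Q35.MM (bx dg mem_bx S_DB S1)
open Pool.Agent.Q35.EO

variable {K : Type} [Field K] [NumberField K]

theorem bxg_sub {I : Ideal (𝓞 K)} {t : (K →+* ℂ) → ℝ} {c0 : ℝ} (ht : Shp c0 t) {c : ℕ}
    (hc : c0 ≤ c) (N B : ℕ) : bxg K I t N B ⊆ bx K N (c * B) := by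
  intro x hx
  rw [mem_bxg] at hx
  rw [mem_bx]
  intro a
  obtain ⟨⟨y, -, hy⟩, h2⟩ := hx a
  refine ⟨hy ▸ y.isIntegral_coe, fun φ => (h2 φ).trans ?_⟩
  push_cast
  exact mul_le_mul_of_nonneg_right ((ht φ).2.trans hc) (Nat.cast_nonneg B)

theorem smul_mem_bxg {I : Ideal (𝓞 K)} {t : (K →+* ℂ) → ℝ} {c0 : ℝ} (ht : Shp c0 t)
    (h1 : 1 ≤ c0) {c q : ℕ} (hc : c0 ≤ c) (hq : (q : 𝓞 K) ∈ I) {N ρ ρ' : ℕ}
    (h : c * q * ρ' ≤ ρ) {x : Fin N → K} (hx : x ∈ bx K N ρ') :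
    ((q : K) • x) ∈ bxg K I t N ρ := by
  rw [mem_bx] at hx
  rw [mem_bxg]
  intro a
  obtain ⟨hi, h2⟩ := hx a
  have hc0 : (0 : ℝ) < c := by linarith
  obtain ⟨y, hy⟩ : ∃ y : 𝓞 K, algebraMap (𝓞 K) K y = x a := ⟨⟨x a, hi⟩, rfl⟩
  refine ⟨⟨(q : 𝓞 K) * y, I.mul_mem_right _ hq, ?_⟩, fun φ => ?_⟩
  · rw [map_mul, map_natCast, hy, Pi.smul_apply, smul_eq_mul]
  · rw [Pi.smul_apply, smul_eq_mul, map_mul, map_natCast, norm_mul, Complex.norm_natCast]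
    have h3 : (q : ℝ) * ‖φ (x a)‖ ≤ q * ρ' := mul_le_mul_of_nonneg_left (h2 φ) (Nat.cast_nonneg q)
    have h4 : (c : ℝ) * q * ρ' ≤ ρ := by exact_mod_cast h
    have h5 : 1 / (c : ℝ) ≤ t φ := (one_div_le_one_div_of_le (by linarith) hc).trans (ht φ).1
    have h6 : (q : ℝ) * ρ' ≤ 1 / (c : ℝ) * ρ := by
      rw [div_mul_eq_mul_div, one_mul, le_div_iff₀ hc0]
      linarith
    exact h3.trans (h6.trans (mul_le_mul_of_nonneg_right h5 (Nat.cast_nonneg ρ)))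

theorem zero_mem_bxg {I : Ideal (𝓞 K)} {t : (K →+* ℂ) → ℝ} {c0 : ℝ} (ht : Shp c0 t)
    (h1 : 1 ≤ c0) (N ρ : ℕ) : (0 : Fin N → K) ∈ bxg K I t N ρ := by
  rw [mem_bxg]
  intro a
  refine ⟨⟨0, I.zero_mem, by simp⟩, fun φ => ?_⟩
  rw [Pi.zero_apply, map_zero, norm_zero]
  have : 0 ≤ t φ := le_trans (by positivity) (ht φ).1
  positivity

theorem one_le_nug {I : Ideal (𝓞 K)} {t : (K →+* ℂ) → ℝ} {c0 : ℝ} (ht : Shp c0 t)
    (h1 : 1 ≤ c0) (N : ℕ) (V : Submodule K (Fin N → K)) (ρ : ℕ) : 1 ≤ nug K I t N V ρ := by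
  classical
  unfold nug
  rw [Nat.one_le_iff_ne_zero, Ne, Finset.card_eq_zero, ← Ne, ← Finset.nonempty_iff_ne_empty]
  exact ⟨0, mem_filter.2 ⟨zero_mem_bxg ht h1 N ρ, V.zero_mem⟩⟩

theorem nug_mono {I : Ideal (𝓞 K)} {t : (K →+* ℂ) → ℝ} (N : ℕ)
    {V W : Submodule K (Fin N → K)} (h : V ≤ W) (ρ : ℕ) : nug K I t N V ρ ≤ nug K I t N W ρ := by
  classical
  unfold nug
  refine card_le_card fun x hx => ?_
  rw [mem_filter] at hx ⊢
  exact ⟨hx.1, h hx.2⟩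

theorem dbg (hDB : S_DB) (N e : ℕ) (I : Ideal (𝓞 K)) (c0 : ℝ) (hI : I ≠ ⊥) (h1 : 1 ≤ c0) :
    ∃ A : ℝ, 1 ≤ A ∧ ∀ t : (K →+* ℂ) → ℝ, Shp c0 t → ∀ V : Submodule K (Fin N → K),
      Module.finrank K V ≤ e → ∀ ρ B : ℕ, 1 ≤ ρ → ρ ≤ B →
        (nug K I t N V B : ℝ) ≤ A * ((B : ℝ) / ρ) ^ (dg K * e) * nug K I t N V ρ := by
  classical
  set c : ℕ := ⌈c0⌉₊ with hc
  have hcc : c0 ≤ c := Nat.le_ceil c0
  have hc1 : 1 ≤ c := by
    have : (1 : ℝ) ≤ c := h1.trans hcc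
    exact_mod_cast this
  set q : ℕ := Ideal.absNorm I with hq
  have hq1 : 1 ≤ q := by
    rw [Nat.one_le_iff_ne_zero, hq, Ne, Ideal.absNorm_eq_zero_iff]
    exact hI
  have hqI : (q : 𝓞 K) ∈ I := Ideal.absNorm_mem I
  set W : ℕ := (bx K N 1).card with hW
  have hW1 : 1 ≤ W := by
    rw [hW, Nat.one_le_iff_ne_zero, Ne, Finset.card_eq_zero, ← Ne, ← Finset.nonempty_iff_ne_empty]
    refine ⟨0, ?_⟩
    rw [mem_bx]
    intro a
    refine ⟨isIntegral_zero, fun φ => ?_⟩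
    rw [Pi.zero_apply, map_zero, norm_zero]
    positivity
  have hcr : (1 : ℝ) ≤ c := by exact_mod_cast hc1
  have hqr : (1 : ℝ) ≤ q := by exact_mod_cast hq1
  have hWr : (1 : ℝ) ≤ W := by exact_mod_cast hW1
  have hbase : (1 : ℝ) ≤ 6 * c ^ 2 * q := by
    have : (1 : ℝ) ≤ c ^ 2 := one_le_pow₀ hcr
    nlinarith
  refine ⟨(6 * (c : ℝ) ^ 2 * q) ^ (dg K * e) * W, ?_, ?_⟩
  · have := one_le_pow₀ (n := dg K * e) hbase
    nlinarith
  intro t ht V hV ρ B hρ hρB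
  have hρr : (1 : ℝ) ≤ ρ := by exact_mod_cast hρ
  have hρBr : (ρ : ℝ) ≤ B := by exact_mod_cast hρB
  have hBr : (1 : ℝ) ≤ B := hρr.trans hρBr
  have s1 : (nug K I t N V B : ℝ) ≤ (((bx K N (c * B)).filter (· ∈ V)).card : ℝ) := by
    unfold nug
    exact_mod_cast card_le_card (filter_subset_filter _ (bxg_sub ht hcc N B))
  have hBc : B ≤ c * B := Nat.le_mul_of_pos_left B hc1
  by_cases hcase : c * q ≤ ρ
  · set ρ' : ℕ := ρ / (c * q) with hρ'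
    have hcq : 0 < c * q := Nat.mul_pos hc1 hq1
    have h2 : 1 ≤ ρ' := (Nat.one_le_div_iff hcq).2 hcase
    have h3 : ρ' ≤ c * B := (Nat.div_le_self _ _).trans (hρB.trans hBc)
    have h4 := hDB K N V e hV (c * B) ρ' h2 h3
    have h5 : c * q * ρ' ≤ ρ := Nat.mul_div_le _ _
    have h6 : ((bx K N ρ').filter (· ∈ V)).card ≤ nug K I t N V ρ := by
      unfold nug
      refine Finset.card_le_card_of_injOn (fun x => (q : K) • x) ?_ ?_
      · intro x hx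
        rw [mem_coe, mem_filter] at hx
        rw [mem_coe, mem_filter]
        exact ⟨smul_mem_bxg ht h1 hcc hqI h5 hx.1, V.smul_mem _ hx.2⟩
      · intro x _ y _ hxy
        have hq0 : (q : K) ≠ 0 := by
          rw [Ne, Nat.cast_eq_zero]
          omega
        exact smul_right_injective _ hq0 hxy
    have h7 : (3 * ((c * B : ℕ) : ℝ) / ρ') ≤ 6 * c ^ 2 * q * ((B : ℝ) / ρ) := by
      have h8 : (ρ : ℝ) ≤ 2 * (c * q * ρ') := by
        have : ρ < c * q * (ρ' + 1) := Nat.lt_mul_div_succ ρ hcq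
        have h9 : c * q * (ρ' + 1) ≤ 2 * (c * q * ρ') := by nlinarith
        have h10 : ρ ≤ 2 * (c * q * ρ') := by omega
        exact_mod_cast h10
      have hρ'r : (0 : ℝ) < ρ' := by exact_mod_cast h2
      rw [mul_div_assoc', div_le_div_iff₀ hρ'r (by linarith)]
      push_cast
      calc 3 * ((c : ℝ) * B) * ρ ≤ 3 * (c * B) * (2 * (c * q * ρ')) :=
            mul_le_mul_of_nonneg_left h8 (by positivity)
        _ = 6 * c ^ 2 * q * B * ρ' := by ring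
    calc (nug K I t N V B : ℝ) ≤ (((bx K N (c * B)).filter (· ∈ V)).card : ℝ) := s1
      _ ≤ (3 * ((c * B : ℕ) : ℝ) / ρ') ^ (dg K * e) * (((bx K N ρ').filter (· ∈ V)).card : ℝ) := h4
      _ ≤ (6 * c ^ 2 * q * ((B : ℝ) / ρ)) ^ (dg K * e) * nug K I t N V ρ := by
          refine mul_le_mul (pow_le_pow_left₀ (by positivity) h7 _) (by exact_mod_cast h6)
            (by positivity) (by positivity)
      _ ≤ (6 * (c : ℝ) ^ 2 * q) ^ (dg K * e) * W * ((B : ℝ) / ρ) ^ (dg K * e) *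
            nug K I t N V ρ := by
          rw [mul_pow]
          have : 0 ≤ (6 * (c : ℝ) ^ 2 * q) ^ (dg K * e) * ((B : ℝ) / ρ) ^ (dg K * e) *
            nug K I t N V ρ := by positivity
          nlinarith
  · push Not at hcase
    have h4 := hDB K N V e hV (c * B) 1 le_rfl (by
      have := Nat.mul_pos hc1 (hρ.trans hρB)
      omega)
    have h5 : (((bx K N 1).filter (· ∈ V)).card : ℝ) ≤ W := by
      exact_mod_cast card_le_card (filter_subset _ _)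
    have h6 : (1 : ℝ) ≤ nug K I t N V ρ := by exact_mod_cast one_le_nug ht h1 N V ρ
    have h7 : (3 * ((c * B : ℕ) : ℝ) / (1 : ℕ)) ≤ 6 * c ^ 2 * q * ((B : ℝ) / ρ) := by
      have h8 : (ρ : ℝ) ≤ c * q := by exact_mod_cast hcase.le
      rw [mul_div_assoc', le_div_iff₀ (by linarith)]
      push_cast
      rw [div_one]
      calc 3 * ((c : ℝ) * B) * ρ ≤ 3 * (c * B) * (c * q) :=
            mul_le_mul_of_nonneg_left h8 (by positivity)
        _ ≤ 6 * c ^ 2 * q * B := by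
            have : 0 ≤ (c : ℝ) ^ 2 * q * B := by positivity
            nlinarith
    calc (nug K I t N V B : ℝ) ≤ (((bx K N (c * B)).filter (· ∈ V)).card : ℝ) := s1
      _ ≤ (3 * ((c * B : ℕ) : ℝ) / (1 : ℕ)) ^ (dg K * e) *
            (((bx K N 1).filter (· ∈ V)).card : ℝ) := h4
      _ ≤ (6 * c ^ 2 * q * ((B : ℝ) / ρ)) ^ (dg K * e) * W := by
          refine mul_le_mul (pow_le_pow_left₀ (by positivity) h7 _) h5
            (by positivity) (by positivity)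
      _ ≤ (6 * (c : ℝ) ^ 2 * q) ^ (dg K * e) * W * ((B : ℝ) / ρ) ^ (dg K * e) *
            nug K I t N V ρ := by
          rw [mul_pow]
          have : 0 ≤ (6 * (c : ℝ) ^ 2 * q) ^ (dg K * e) * ((B : ℝ) / ρ) ^ (dg K * e) * W := by
            positivity
          nlinarith

/-- the bad fibres -/
theorem dbg_bad (hDB : S_DB) (N e : ℕ) (I : Ideal (𝓞 K)) (c0 : ℝ) (hI : I ≠ ⊥) (h1 : 1 ≤ c0)
    (he : 1 ≤ e) (c : ℕ) (hc : c0 ≤ c) :
    ∃ A : ℝ, 1 ≤ A ∧ ∀ t : (K →+* ℂ) → ℝ, Shp c0 t → ∀ V : Submodule K (Fin N → K),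
      Module.finrank K V = e → ∀ τ σ : ℕ, 1 ≤ τ → τ ≤ σ →
        ¬ V ≤ Submodule.span K {x : Fin N → K | x ∈ V ∧ x ∈ bx K N (c * σ)} → ∀ B : ℕ, σ ≤ B →
        (nug K I t N V B : ℝ) ≤ A * (((B : ℝ) / σ) ^ (dg K * e) *
          (((σ : ℝ) / τ) ^ (dg K * (e - 1)) * nug K I t N V τ)) := by
  classical
  obtain ⟨A1, hA1, h2⟩ := dbg hDB N e I c0 hI h1
  obtain ⟨A2, hA2, h3⟩ := dbg hDB N (e - 1) I c0 hI h1
  refine ⟨A1 * A2, by nlinarith, fun t ht V hV τ σ hτ hτσ hbad B hσB => ?_⟩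
  set V' := Submodule.span K {x : Fin N → K | x ∈ V ∧ x ∈ bx K N (c * σ)} with hV'
  have hle : V' ≤ V := Submodule.span_le.2 fun x hx => hx.1
  have hlt : V' < V := lt_of_le_of_ne hle fun h => hbad h.ge
  have hr : Module.finrank K V' ≤ e - 1 := by
    have := Submodule.finrank_lt_finrank_of_lt hlt
    omega
  have h4 : nug K I t N V σ ≤ nug K I t N V' σ := by
    unfold nug
    refine card_le_card fun x hx => ?_
    rw [mem_filter] at hx ⊢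
    exact ⟨hx.1, Submodule.subset_span ⟨hx.2, bxg_sub ht hc N σ hx.1⟩⟩
  have h5 := h3 t ht V' hr τ σ hτ hτσ
  have h6 : (nug K I t N V' τ : ℝ) ≤ nug K I t N V τ := by exact_mod_cast nug_mono N hle τ
  have h4' : (nug K I t N V σ : ℝ) ≤ nug K I t N V' σ := by exact_mod_cast h4
  have h7 := h2 t ht V hV.le σ B (hτ.trans hτσ) hσB
  have hp1 : 0 ≤ A1 * ((B : ℝ) / σ) ^ (dg K * e) := by positivity
  have hp2 : 0 ≤ A2 * ((σ : ℝ) / τ) ^ (dg K * (e - 1)) := by positivity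
  calc (nug K I t N V B : ℝ) ≤ A1 * ((B : ℝ) / σ) ^ (dg K * e) * nug K I t N V σ := h7
    _ ≤ A1 * ((B : ℝ) / σ) ^ (dg K * e) *
          (A2 * ((σ : ℝ) / τ) ^ (dg K * (e - 1)) * nug K I t N V τ) := by
        refine mul_le_mul_of_nonneg_left ?_ hp1
        exact (h4'.trans h5).trans (mul_le_mul_of_nonneg_left h6 hp2)
    _ = _ := by ring

end Pool.Agent.Q26.EO
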