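import Mathlib

/-!
Project EO, job ST, part 2: inequalities between real numbers.
-/

set_option autoImplicit false

namespace Pool.Agent.Q26.EO

open Finset

/-- good fibres -/
theorem good_step {U0 N0 U1 N1 ρ B D ε : ℝ} {E m p : ℕ} (hE : E = m + p) (hρ : 1 ≤ ρ)
    (hB : ρ ≤ B) (hD : 0 ≤ D) (hε1 : ε ≤ 1) (hε0 : 0 ≤ ε)
    (a0 : U0 ≤ N0) (b0 : N0 ≤ U0 + D * B ^ m) (a1 : U1 ≤ N1) (b1 : N1 ≤ U1 + D * ρ ^ m)
    (h : |N0 * ρ ^ E - N1 * B ^ E| ≤ ε * (N1 * B ^ E)) :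
    |U0 * ρ ^ E - U1 * B ^ E| ≤ ε * (U1 * B ^ E) + 3 * D * ρ ^ m * B ^ E := by
  have hρ0 : (0 : ℝ) < ρ := by linarith
  have hB0 : (0 : ℝ) < B := by linarith
  have hρE : 0 < ρ ^ E := pow_pos hρ0 _
  have hBE : 0 < B ^ E := pow_pos hB0 _
  have k1 : B ^ m * ρ ^ E ≤ ρ ^ m * B ^ E := by
    rw [hE, pow_add, pow_add]
    have : ρ ^ p ≤ B ^ p := pow_le_pow_left₀ hρ0.le hB _
    have h3 : 0 ≤ B ^ m * ρ ^ m := by positivity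
    nlinarith
  have k2 : N0 * ρ ^ E ≤ U0 * ρ ^ E + D * (ρ ^ m * B ^ E) := by
    have h1 := mul_le_mul_of_nonneg_right b0 hρE.le
    have h2 := mul_le_mul_of_nonneg_left k1 hD
    nlinarith
  have k3 : U0 * ρ ^ E ≤ N0 * ρ ^ E := mul_le_mul_of_nonneg_right a0 hρE.le
  have k4 : U1 * B ^ E ≤ N1 * B ^ E := mul_le_mul_of_nonneg_right a1 hBE.le
  have k5 : N1 * B ^ E ≤ U1 * B ^ E + D * (ρ ^ m * B ^ E) := by
    have h1 := mul_le_mul_of_nonneg_right b1 hBE.le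
    nlinarith
  have hW : 0 ≤ D * (ρ ^ m * B ^ E) := by positivity
  have k6 : ε * (N1 * B ^ E) ≤ ε * (U1 * B ^ E) + D * (ρ ^ m * B ^ E) := by
    have h1 := mul_le_mul_of_nonneg_left k5 hε0
    have h2 := mul_le_mul_of_nonneg_right hε1 hW
    nlinarith
  obtain ⟨h1, h2⟩ := abs_le.1 h
  rw [abs_le]
  constructor <;> nlinarith

/-- bad fibres -/
theorem bad_step {U0 N0 U1 N1 U2 N2 ρ B σ τ D A : ℝ} {E E1 m : ℕ} (hρ : 0 < ρ) (hB : 0 < B)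
    (hσ : 0 < σ) (hτ : 0 < τ) (hA : 0 ≤ A) (z0 : 0 ≤ U0) (z1 : 0 ≤ U1)
    (a0 : U0 ≤ N0) (a1 : U1 ≤ N1) (b2 : N2 ≤ U2 + D * τ ^ m)
    (h0 : N0 ≤ A * ((B / σ) ^ E * ((σ / τ) ^ E1 * N2)))
    (h1 : N1 ≤ A * ((ρ / σ) ^ E * ((σ / τ) ^ E1 * N2))) :
    |U0 * ρ ^ E - U1 * B ^ E| ≤
      2 * A * B ^ E * ((ρ / σ) ^ E * (σ / τ) ^ E1) * (U2 + D * τ ^ m) := by
  have hρE : 0 < ρ ^ E := pow_pos hρ _
  have hBE : 0 < B ^ E := pow_pos hB _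
  have k0 : U0 * ρ ^ E ≤ A * B ^ E * ((ρ / σ) ^ E * (σ / τ) ^ E1) * N2 := by
    have h := mul_le_mul_of_nonneg_right (a0.trans h0) hρE.le
    have e : A * ((B / σ) ^ E * ((σ / τ) ^ E1 * N2)) * ρ ^ E =
        A * B ^ E * ((ρ / σ) ^ E * (σ / τ) ^ E1) * N2 := by
      rw [div_pow B, div_pow ρ]
      ring
    linarith
  have k1 : U1 * B ^ E ≤ A * B ^ E * ((ρ / σ) ^ E * (σ / τ) ^ E1) * N2 := by
    have h := mul_le_mul_of_nonneg_right (a1.trans h1) hBE.le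
    have e : A * ((ρ / σ) ^ E * ((σ / τ) ^ E1 * N2)) * B ^ E =
        A * B ^ E * ((ρ / σ) ^ E * (σ / τ) ^ E1) * N2 := by
      ring
    linarith
  have hG : 0 ≤ A * B ^ E * ((ρ / σ) ^ E * (σ / τ) ^ E1) := by positivity
  have k2 := mul_le_mul_of_nonneg_left b2 hG
  have z0' : 0 ≤ U0 * ρ ^ E := mul_nonneg z0 hρE.le
  have z1' : 0 ≤ U1 * B ^ E := mul_nonneg z1 hBE.le
  have e : 2 * A * B ^ E * ((ρ / σ) ^ E * (σ / τ) ^ E1) * (U2 + D * τ ^ m) =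
      A * B ^ E * ((ρ / σ) ^ E * (σ / τ) ^ E1) * (U2 + D * τ ^ m) +
      A * B ^ E * ((ρ / σ) ^ E * (σ / τ) ^ E1) * (U2 + D * τ ^ m) := by ring
  rw [e, abs_le]
  constructor <;> linarith

/-- the sum over the fibres -/
theorem sum_step {α : Type} (X : Finset α) (U0 U1 U2 : α → ℝ) {ρ B τ D A ε G : ℝ} {E m : ℕ}
    (z1 : ∀ x ∈ X, 0 ≤ U1 x) (z2 : ∀ x ∈ X, 0 ≤ U2 x) (hρ : 0 < ρ) (hB : 0 < B) (hτ : 0 < τ)
    (hD : 0 ≤ D) (hA : 0 ≤ A) (hε : 0 ≤ ε) (hG : 0 ≤ G)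
    (h : ∀ x ∈ X, |U0 x * ρ ^ E - U1 x * B ^ E| ≤ ε * (U1 x * B ^ E) + 3 * D * ρ ^ m * B ^ E ∨
      |U0 x * ρ ^ E - U1 x * B ^ E| ≤ 2 * A * B ^ E * G * (U2 x + D * τ ^ m)) :
    |(∑ x ∈ X, U0 x) * ρ ^ E - (∑ x ∈ X, U1 x) * B ^ E| ≤
      ε * ((∑ x ∈ X, U1 x) * B ^ E) + 3 * D * ρ ^ m * B ^ E * X.card +
        2 * A * B ^ E * G * (∑ x ∈ X, U2 x + D * τ ^ m * X.card) := by
  have h1 : ∀ x ∈ X, |U0 x * ρ ^ E - U1 x * B ^ E| ≤ ε * (U1 x * B ^ E) +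
      3 * D * ρ ^ m * B ^ E + 2 * A * B ^ E * G * (U2 x + D * τ ^ m) := by
    intro x hx
    have p1 : 0 ≤ ε * (U1 x * B ^ E) + 3 * D * ρ ^ m * B ^ E := by
      have := z1 x hx
      positivity
    have p2 : 0 ≤ 2 * A * B ^ E * G * (U2 x + D * τ ^ m) := by
      have := z2 x hx
      positivity
    rcases h x hx with h | h <;> linarith
  calc |(∑ x ∈ X, U0 x) * ρ ^ E - (∑ x ∈ X, U1 x) * B ^ E|
      = |∑ x ∈ X, (U0 x * ρ ^ E - U1 x * B ^ E)| := by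
        rw [Finset.sum_sub_distrib, ← Finset.sum_mul, ← Finset.sum_mul]
    _ ≤ ∑ x ∈ X, |U0 x * ρ ^ E - U1 x * B ^ E| := Finset.abs_sum_le_sum_abs _ _
    _ ≤ ∑ x ∈ X, (ε * (U1 x * B ^ E) +
          3 * D * ρ ^ m * B ^ E + 2 * A * B ^ E * G * (U2 x + D * τ ^ m)) :=
        Finset.sum_le_sum h1
    _ = _ := by
        have e1 : ∑ x ∈ X, ε * (U1 x * B ^ E) = ε * ((∑ x ∈ X, U1 x) * B ^ E) := by
          rw [← Finset.mul_sum, ← Finset.sum_mul]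
        have e2 : ∑ x ∈ X, 2 * A * B ^ E * G * (U2 x + D * τ ^ m) =
            2 * A * B ^ E * G * (∑ x ∈ X, U2 x + D * τ ^ m * X.card) := by
          rw [← Finset.mul_sum, Finset.sum_add_distrib, Finset.sum_const, nsmul_eq_mul]
          ring
        rw [Finset.sum_add_distrib, Finset.sum_add_distrib, e1, e2, Finset.sum_const,
          nsmul_eq_mul]
        ring

/-- the final estimate -/
theorem final_step {F0 F1 F2 X P Q ρ B τ D A H ε G L μ ν a κ : ℝ} {E m : ℕ}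
    (hρ : 0 < ρ) (hB : 0 < B) (hτ : 0 < τ) (hP : 0 ≤ P) (hF1 : 0 ≤ F1) (hH : 0 ≤ H)
    (hD : 0 ≤ D) (hA : 0 ≤ A) (hG : 0 ≤ G) (hL : 1 ≤ L) (ha : 0 ≤ a) (hκ : 0 ≤ κ) (hμ : 0 ≤ μ)
    (hX : X ≤ D * (P * Q)) (hF2 : F2 ≤ H * (τ ^ E * P) * L) (h1 : Q * ρ ^ m ≤ μ * ρ ^ E)
    (h2 : Q * τ ^ m ≤ τ ^ E) (h3 : G * τ ^ E ≤ κ * ρ ^ E * μ) (h4 : ε ≤ a * μ)
    (h5 : μ * L ≤ ν)
    (h : |F0 * ρ ^ E - F1 * B ^ E| ≤ ε * (F1 * B ^ E) + 3 * D * ρ ^ m * B ^ E * X +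
        2 * A * B ^ E * G * (F2 + D * τ ^ m * X)) :
    |F0 * ρ ^ E - F1 * B ^ E| ≤ (a + 3 * D ^ 2 + 2 * A * κ * (H + D ^ 2)) * ν *
      (B ^ E * (F1 + ρ ^ E * P)) := by
  have hBE : 0 < B ^ E := pow_pos hB _
  have hρE : 0 < ρ ^ E := pow_pos hρ _
  have hτE : 0 < τ ^ E := pow_pos hτ _
  have hρm : 0 < ρ ^ m := pow_pos hρ _
  have hτm : 0 < τ ^ m := pow_pos hτ _
  have hμν : μ ≤ ν := le_trans (by nlinarith) h5
  have hν : 0 ≤ ν := hμ.trans hμν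
  -- first term
  have t1 : ε * (F1 * B ^ E) ≤ a * ν * (B ^ E * F1) := by
    have e1 : ε ≤ a * ν := h4.trans (mul_le_mul_of_nonneg_left hμν ha)
    have := mul_le_mul_of_nonneg_right e1 (mul_nonneg hF1 hBE.le)
    linarith
  -- second term
  have t2 : 3 * D * ρ ^ m * B ^ E * X ≤ 3 * D ^ 2 * ν * (B ^ E * (ρ ^ E * P)) := by
    have e0 : 0 ≤ 3 * D * ρ ^ m * B ^ E := by positivity
    have e1 := mul_le_mul_of_nonneg_left hX e0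
    have e2 : 3 * D * ρ ^ m * B ^ E * (D * (P * Q)) = 3 * D ^ 2 * B ^ E * P * (Q * ρ ^ m) := by
      ring
    have e3 : 0 ≤ 3 * D ^ 2 * B ^ E * P := by positivity
    have e4 := mul_le_mul_of_nonneg_left (h1.trans (mul_le_mul_of_nonneg_right hμν hρE.le)) e3
    have e5 : 3 * D ^ 2 * B ^ E * P * (ν * ρ ^ E) = 3 * D ^ 2 * ν * (B ^ E * (ρ ^ E * P)) := by
      ring
    linarith
  -- third term
  have t3 : F2 + D * τ ^ m * X ≤ (H + D ^ 2) * (τ ^ E * P) * L := by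
    have e0 : 0 ≤ D * τ ^ m := by positivity
    have e1 := mul_le_mul_of_nonneg_left hX e0
    have e2 : D * τ ^ m * (D * (P * Q)) = D ^ 2 * P * (Q * τ ^ m) := by ring
    have e3 := mul_le_mul_of_nonneg_left h2 (by positivity : 0 ≤ D ^ 2 * P)
    have e4 : D ^ 2 * P * τ ^ E ≤ D ^ 2 * (τ ^ E * P) * L := by
      have : 0 ≤ D ^ 2 * (τ ^ E * P) := by positivity
      nlinarith
    nlinarith
  have t4 : 2 * A * B ^ E * G * (F2 + D * τ ^ m * X) ≤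
      2 * A * κ * (H + D ^ 2) * ν * (B ^ E * (ρ ^ E * P)) := by
    have e0 : 0 ≤ 2 * A * B ^ E * G := by positivity
    have e1 := mul_le_mul_of_nonneg_left t3 e0
    have e2 : 2 * A * B ^ E * G * ((H + D ^ 2) * (τ ^ E * P) * L) =
        2 * A * B ^ E * (H + D ^ 2) * P * L * (G * τ ^ E) := by ring
    have e3 := mul_le_mul_of_nonneg_left h3
      (by positivity : 0 ≤ 2 * A * B ^ E * (H + D ^ 2) * P * L)
    have e4 : 2 * A * B ^ E * (H + D ^ 2) * P * L * (κ * ρ ^ E * μ) =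
        2 * A * κ * (H + D ^ 2) * (B ^ E * (ρ ^ E * P)) * (μ * L) := by ring
    have e5 := mul_le_mul_of_nonneg_left h5
      (by positivity : 0 ≤ 2 * A * κ * (H + D ^ 2) * (B ^ E * (ρ ^ E * P)))
    linarith
  have t5 : a * ν * (B ^ E * F1) ≤ (a + 3 * D ^ 2 + 2 * A * κ * (H + D ^ 2)) * ν * (B ^ E * F1) := by
    have : 0 ≤ (3 * D ^ 2 + 2 * A * κ * (H + D ^ 2)) * ν * (B ^ E * F1) := by positivity
    linarith
  have t6 : (3 * D ^ 2 + 2 * A * κ * (H + D ^ 2)) * ν * (B ^ E * (ρ ^ E * P)) ≤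
      (a + 3 * D ^ 2 + 2 * A * κ * (H + D ^ 2)) * ν * (B ^ E * (ρ ^ E * P)) := by
    have : 0 ≤ a * ν * (B ^ E * (ρ ^ E * P)) := by positivity
    linarith
  linarith

/-- powers with real exponents -/
theorem ceil_bounds {y : ℝ} (hy : 1 ≤ y) : y ≤ (⌈y⌉₊ : ℝ) ∧ (⌈y⌉₊ : ℝ) ≤ 2 * y ∧ 1 ≤ ⌈y⌉₊ := by
  have h1 := Nat.le_ceil y
  have h2 := Nat.ceil_lt_add_one (by linarith : 0 ≤ y)
  refine ⟨h1, by linarith, ?_⟩
  rw [Nat.one_le_ceil_iff]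
  linarith

/-- the ratio of two scales -/
theorem ratio_le {x θ θ' γ : ℝ} (hx : 1 ≤ x) (hθ : θ' + γ = θ) {σ ρ : ℕ}
    (hσ : (σ : ℝ) ≤ 2 * x ^ θ') (hρ : x ^ θ ≤ (ρ : ℝ)) : (σ : ℝ) / ρ ≤ 2 * x ^ (-γ) := by
  have hx0 : 0 < x := by linarith
  have h1 : 0 < x ^ θ := Real.rpow_pos_of_pos hx0 _
  rw [div_le_iff₀ (by linarith)]
  have h2 : x ^ θ' = x ^ (-γ) * x ^ θ := by
    rw [← Real.rpow_add hx0]
    congr 1
    linarith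
  calc (σ : ℝ) ≤ 2 * x ^ θ' := hσ
    _ = 2 * x ^ (-γ) * x ^ θ := by rw [h2]; ring
    _ ≤ 2 * x ^ (-γ) * ρ := mul_le_mul_of_nonneg_left hρ
        (mul_nonneg (by norm_num) (Real.rpow_nonneg hx0.le _))

/-- `x ^ q ≤ ρ ^ p * x ^ (-γ)` if `ρ ≥ x ^ (α + γ)` and `α p = q`. -/
theorem pow_scale {x α γ : ℝ} {p q : ℕ} (hx : 1 ≤ x) (hα : α * p = q) (hγ : 0 ≤ γ) (hp : 1 ≤ p)
    {ρ : ℝ} (hρ : x ^ (α + γ) ≤ ρ) : x ^ q ≤ ρ ^ p * x ^ (-γ) := by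
  have hx0 : 0 < x := by linarith
  have h1 : 0 ≤ x ^ (α + γ) := Real.rpow_nonneg hx0.le _
  have h2 : (x ^ (α + γ)) ^ p ≤ ρ ^ p := pow_le_pow_left₀ h1 hρ _
  have h3 : (x ^ (α + γ)) ^ p = x ^ (q : ℝ) * x ^ (γ * p) := by
    rw [← Real.rpow_natCast, ← Real.rpow_mul hx0.le, ← Real.rpow_add hx0]
    congr 1
    rw [← hα]
    ring
  have h4 : x ^ γ ≤ x ^ (γ * p) := by
    refine Real.rpow_le_rpow_of_exponent_le hx ?_
    have : (1 : ℝ) ≤ p := by exact_mod_cast hp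
    nlinarith
  have h5 : x ^ q = x ^ q * x ^ γ * x ^ (-γ) := by
    rw [mul_assoc, ← Real.rpow_add hx0, add_neg_cancel, Real.rpow_zero, mul_one]
  rw [h5]
  refine mul_le_mul_of_nonneg_right ?_ (Real.rpow_nonneg hx0.le _)
  refine le_trans ?_ h2
  rw [h3, Real.rpow_natCast]
  exact mul_le_mul_of_nonneg_left h4 (pow_nonneg hx0.le _)

end Pool.Agent.Q26.EO
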