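import Pool.Agent.Q26.EO.Dbg
import Pool.Agent.Q26.EO.Real

/-!
Project EO, job ST: the sharp step.
-/

set_option autoImplicit false

namespace Pool.Agent.Q26.EO

open Finset Function MvPolynomial NumberField
open Pool.Agent.Q35.MM (bx dg S_DB)
open Pool.Agent.Q35.SM (Cof Vs Var Pol ev pv MH Opn Cut Twr UU FF)
open Pool.Agent.Q35.LO (VV)
open Pool.Agent.Q35.EO

variable {K : Type} [Field K] [NumberField K] {ι : Type} [Fintype ι] [DecidableEq ι] {n : ι → ℕ}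

theorem XX_update (G : Finset ι → Finset (Pol K n)) (I : ι → Ideal (𝓞 K))
    (t : ι → (K →+* ℂ) → ℝ) (i : ι) (b : ι → ℕ) (y : ℕ) :
    XX G I t i (update b i y) = XX G I t i b := by
  unfold XX
  congr 2
  funext l
  by_cases h : l = i
  · rw [if_pos h, if_pos h]
  · rw [if_neg h, if_neg h, update_of_ne h]

theorem FFg_sub {k : ℕ} (c : Fin k → Cof K n) (G : Finset ι → Finset (Pol K n))
    (I : ι → Ideal (𝓞 K)) {c0 : ℝ} {t : ι → (K →+* ℂ) → ℝ} (ht : ∀ l, Shp c0 (t l)) {cc : ℕ}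
    (hc : c0 ≤ cc) (b : ι → ℕ) : FFg c G I t b ⊆ FF c G (fun l => cc * b l) := by
  classical
  intro P hP
  unfold FFg at hP
  unfold FF
  rw [mem_filter, Fintype.mem_piFinset] at hP ⊢
  exact ⟨fun l => bxg_sub (ht l) hc _ _ (hP.1 l), hP.2⟩

theorem F_bound {k : ℕ} (c : Fin k → Cof K n) (G : Finset ι → Finset (Pol K n))
    (I : ι → Ideal (𝓞 K)) (c0 : ℝ) (h1 : 1 ≤ c0) (hs : 1 ≤ Fintype.card ι) (γ : ℝ) (hγ : 0 < γ)
    (hW : ∀ δ : ℝ, 0 < δ → ∃ C : ℝ, 0 ≤ C ∧ ∀ b : ι → ℕ, (∀ l, 1 ≤ b l) →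
      ((FF c G b).card : ℝ) ≤
        C * (∏ l, (b l : ℝ) ^ (dg K * (n l + 1 - k))) * (∏ l, (b l : ℝ)) ^ δ) :
    ∃ H : ℝ, 0 ≤ H ∧ ∀ t : ι → (K →+* ℂ) → ℝ, (∀ l, Shp c0 (t l)) →
      ∀ (b : ι → ℕ) (M : ℕ), (∀ l, 1 ≤ b l) → (∀ l, b l ≤ M) →
        ((FFg c G I t b).card : ℝ) ≤
          H * (∏ l, (b l : ℝ) ^ (dg K * (n l + 1 - k))) * (M : ℝ) ^ (γ / 2) := by
  set s := Fintype.card ι with hsd
  have hs0 : (0 : ℝ) < s := by exact_mod_cast hs
  obtain ⟨C, hC, hCb⟩ := hW (γ / 2 / s) (by positivity)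
  set cc : ℕ := ⌈c0⌉₊ with hcc
  have hc : c0 ≤ cc := Nat.le_ceil c0
  have hcr : (1 : ℝ) ≤ cc := h1.trans hc
  have hc1 : 1 ≤ cc := by exact_mod_cast hcr
  refine ⟨C * (∏ l, (cc : ℝ) ^ (dg K * (n l + 1 - k))) * (cc : ℝ) ^ (γ / 2), by positivity,
    fun t ht b M hb hM => ?_⟩
  have h2 : ((FFg c G I t b).card : ℝ) ≤ ((FF c G (fun l => cc * b l)).card : ℝ) := by
    exact_mod_cast card_le_card (FFg_sub c G I ht hc b)
  have h3 := hCb (fun l => cc * b l) fun l => Nat.mul_pos hc1 (hb l)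
  have h4 : (∏ l, ((cc * b l : ℕ) : ℝ)) ^ (γ / 2 / s) ≤ (cc : ℝ) ^ (γ / 2) * (M : ℝ) ^ (γ / 2) := by
    have h5 : (∏ l, ((cc * b l : ℕ) : ℝ)) ≤ ((cc : ℝ) * M) ^ s := by
      have : ∏ _l : ι, ((cc : ℝ) * M) = ((cc : ℝ) * M) ^ s := by
        rw [Finset.prod_const, Finset.card_univ]
      rw [← this]
      refine Finset.prod_le_prod (fun l _ => Nat.cast_nonneg _) fun l _ => ?_
      push_cast
      have : (b l : ℝ) ≤ M := by exact_mod_cast hM l
      exact mul_le_mul_of_nonneg_left this (Nat.cast_nonneg _)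
    have h6 : (0 : ℝ) ≤ ∏ l, ((cc * b l : ℕ) : ℝ) := Finset.prod_nonneg fun l _ => Nat.cast_nonneg _
    have h7 : (0 : ℝ) ≤ (cc : ℝ) * M := by positivity
    refine (Real.rpow_le_rpow h6 h5 (by positivity)).trans ?_
    rw [← Real.rpow_natCast, ← Real.rpow_mul h7]
    have : (s : ℝ) * (γ / 2 / s) = γ / 2 := by field_simp
    rw [this, Real.mul_rpow (Nat.cast_nonneg _) (Nat.cast_nonneg _)]
  have h8 : ∏ l, ((cc * b l : ℕ) : ℝ) ^ (dg K * (n l + 1 - k)) =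
      (∏ l, (cc : ℝ) ^ (dg K * (n l + 1 - k))) * ∏ l, (b l : ℝ) ^ (dg K * (n l + 1 - k)) := by
    rw [← Finset.prod_mul_distrib]
    refine Finset.prod_congr rfl fun l _ => ?_
    push_cast
    rw [mul_pow]
  calc ((FFg c G I t b).card : ℝ) ≤ ((FF c G (fun l => cc * b l)).card : ℝ) := h2
    _ ≤ C * (∏ l, ((cc * b l : ℕ) : ℝ) ^ (dg K * (n l + 1 - k))) *
          (∏ l, ((cc * b l : ℕ) : ℝ)) ^ (γ / 2 / s) := h3
    _ ≤ C * (∏ l, ((cc * b l : ℕ) : ℝ) ^ (dg K * (n l + 1 - k))) *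
          ((cc : ℝ) ^ (γ / 2) * (M : ℝ) ^ (γ / 2)) :=
        mul_le_mul_of_nonneg_left h4 (by positivity)
    _ = _ := by
        rw [h8]
        ring

/-- the sharp step in a fixed direction -/
theorem st_fix (hLAT : S_LAT) (hFIB : S_FIB) (hDB : S_DB)
    (k r : ℕ) (c : Fin k → Cof K n) (G : Finset ι → Finset (Pol K n)) (I : ι → Ideal (𝓞 K))
    (c0 : ℝ) (hs : 2 ≤ Fintype.card ι) (hk : 1 ≤ k) (hr : k * Fintype.card ι + 1 ≤ r)
    (hrn : ∀ i, r ≤ n i + 1) (hT : Twr k r c G) (hI : ∀ l, I l ≠ ⊥) (h1 : 1 ≤ c0)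
    (hW : ∀ δ : ℝ, 0 < δ → ∃ C : ℝ, 0 ≤ C ∧ ∀ b : ι → ℕ, (∀ l, 1 ≤ b l) →
      ((FF c G b).card : ℝ) ≤
        C * (∏ l, (b l : ℝ) ^ (dg K * (n l + 1 - k))) * (∏ l, (b l : ℝ)) ^ δ)
    (α γ : ℝ) (hα0 : 0 ≤ α) (hγ : 0 < γ) (hαp : α * ((r - k : ℕ) : ℝ) =
      ((k * (Fintype.card ι - 1) : ℕ) : ℝ)) (i : ι) :
    ∃ C : ℝ, 0 ≤ C ∧ ∀ t : ι → (K →+* ℂ) → ℝ, (∀ l, Shp c0 (t l)) →
      ∀ (b : ι → ℕ) (M : ℕ), (∀ l, 1 ≤ b l) → (∀ l, b l ≤ M) →
      ⌈(M : ℝ) ^ (α + 2 * γ)⌉₊ ≤ b i →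
        |((FFg c G I t b).card : ℝ) *
            (⌈(M : ℝ) ^ (α + 2 * γ)⌉₊ : ℝ) ^ (dg K * (n i + 1 - k)) -
          ((FFg c G I t (update b i ⌈(M : ℝ) ^ (α + 2 * γ)⌉₊)).card : ℝ) *
            (b i : ℝ) ^ (dg K * (n i + 1 - k))| ≤
          C * (M : ℝ) ^ (-(γ / 2)) * ((b i : ℝ) ^ (dg K * (n i + 1 - k)) *
            ((FFg c G I t (update b i ⌈(M : ℝ) ^ (α + 2 * γ)⌉₊)).card +
              ∏ l, ((update b i ⌈(M : ℝ) ^ (α + 2 * γ)⌉₊ l : ℕ) : ℝ) ^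
                (dg K * (n l + 1 - k)))) := by
  classical
  set s := Fintype.card ι with hsd
  have hks : k * s = k * (s - 1) + k := by
    obtain ⟨s', hs'⟩ : ∃ s', s = s' + 1 := ⟨s - 1, by omega⟩
    rw [hs']
    simp only [Nat.add_sub_cancel]
    ring
  have hkr : k ≤ r := by
    have : k * 1 ≤ k * s := Nat.mul_le_mul_left k (by omega)
    omega
  have hp1 : 1 ≤ r - k := by omega
  have hn := hrn i
  have hd1 : 1 ≤ dg K := Module.finrank_pos
  set d := dg K with hd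
  set e := n i + 1 - k with he
  set m' := n i + 1 - r with hm'
  set p := r - k with hp
  set q := k * (s - 1) with hq
  have hemp : e = m' + p := by omega
  have he1 : 1 ≤ e := by omega
  set cc : ℕ := ⌈c0⌉₊ with hcc
  have hc : c0 ≤ cc := Nat.le_ceil c0
  have hcr : (1 : ℝ) ≤ cc := h1.trans hc
  have hc1 : 1 ≤ cc := by exact_mod_cast hcr
  obtain ⟨CL, hCL, hLat⟩ := hLAT K (n i + 1) e (I i) c0 (hI i) h1
  obtain ⟨D, hD, hFib⟩ := hFIB K ι n k r c G c0 hs hk hkr hrn hT h1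
  obtain ⟨A, hA, hBad⟩ := dbg_bad hDB (n i + 1) e (I i) c0 (hI i) h1 he1 cc hc
  obtain ⟨H, hH, hFb⟩ := F_bound c G I c0 h1 (by omega : 1 ≤ Fintype.card ι) γ hγ hW
  have hA0 : 0 ≤ A := by linarith
  have hCL0 : 0 ≤ CL := by linarith
  refine ⟨(2 * CL * cc + 3 * D ^ 2 + 2 * A * 2 ^ d * (H + D ^ 2)) + 2 * H * (2 * CL * cc),
    by clear * - hA0 hCL0 hH hD; positivity, fun t ht b M hb hbM hρb => ?_⟩
  set ρ := ⌈(M : ℝ) ^ (α + 2 * γ)⌉₊ with hρd
  have hM1 : 1 ≤ M := (hb i).trans (hbM i)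
  set x : ℝ := (M : ℝ) with hx
  have hx1 : 1 ≤ x := by rw [hx]; exact_mod_cast hM1
  have hx0 : 0 < x := by linarith
  set σ := ⌈x ^ (α + γ)⌉₊ with hσd
  set τ := ⌈x ^ α⌉₊ with hτd
  obtain ⟨ρ1, ρ2, ρ3⟩ := ceil_bounds (Real.one_le_rpow hx1 (by linarith : 0 ≤ α + 2 * γ))
  obtain ⟨σ1, σ2, σ3⟩ := ceil_bounds (Real.one_le_rpow hx1 (by linarith : 0 ≤ α + γ))
  obtain ⟨τ1, τ2, τ3⟩ := ceil_bounds (Real.one_le_rpow hx1 hα0)
  rw [← hρd] at ρ1 ρ2 ρ3
  rw [← hσd] at σ1 σ2 σ3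
  rw [← hτd] at τ1 τ2 τ3
  have hτσ : τ ≤ σ := Nat.ceil_mono (Real.rpow_le_rpow_of_exponent_le hx1 (by linarith))
  have hσρ : σ ≤ ρ := Nat.ceil_mono (Real.rpow_le_rpow_of_exponent_le hx1 (by linarith))
  have hτM : τ ≤ M := hτσ.trans (hσρ.trans (hρb.trans (hbM i)))
  have hρM : ρ ≤ M := hρb.trans (hbM i)
  -- the real versions
  have rρ : (1 : ℝ) ≤ ρ := by exact_mod_cast ρ3
  have rσ : (1 : ℝ) ≤ σ := by exact_mod_cast σ3
  have rτ : (1 : ℝ) ≤ τ := by exact_mod_cast τ3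
  have rB : (ρ : ℝ) ≤ b i := by exact_mod_cast hρb
  have rB1 : (1 : ℝ) ≤ b i := rρ.trans rB
  set P : ℝ := ∏ l ∈ univ.erase i, (b l : ℝ) ^ (d * (n l + 1 - k)) with hP
  have hP0 : 0 ≤ P := Finset.prod_nonneg fun l _ => by positivity
  set Q : ℝ := ∏ l ∈ univ.erase i, (b l : ℝ) ^ (d * k) with hQ
  have hprod : ∀ y : ℕ, ∏ l, ((update b i y l : ℕ) : ℝ) ^ (d * (n l + 1 - k)) =
      (y : ℝ) ^ (d * e) * P := by
    intro y
    rw [← Finset.mul_prod_erase univ _ (mem_univ i), update_self]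
    congr 1
    refine Finset.prod_congr rfl fun l hl => ?_
    rw [update_of_ne (ne_of_mem_erase hl)]
  have hprod0 : ∏ l, (b l : ℝ) ^ (d * (n l + 1 - k)) = (b i : ℝ) ^ (d * e) * P := by
    have := hprod (b i)
    rwa [update_eq_self] at this
  rw [hprod]
  -- the values of the counting function
  have hupd : ∀ y : ℕ, 1 ≤ y → y ≤ M → (∀ l, 1 ≤ update b i y l) ∧ ∀ l, update b i y l ≤ M := by
    intro y hy1 hyM
    constructor
    · intro l
      by_cases h : l = i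
      · subst h; rw [update_self]; exact hy1
      · rw [update_of_ne h]; exact hb l
    · intro l
      by_cases h : l = i
      · subst h; rw [update_self]; exact hyM
      · rw [update_of_ne h]; exact hbM l
  set X := XX G I t i b with hXd
  obtain ⟨hF0, hX, hfib⟩ := hFib I t ht i b hb
  rw [← hXd] at hF0 hX hfib
  have hFy : ∀ y : ℕ, 1 ≤ y → y ≤ M →
      (FFg c G I t (update b i y)).card = ∑ x ∈ X, nuU c G I t i x y := by
    intro y hy1 hyM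
    obtain ⟨h2, -, -⟩ := hFib I t ht i (update b i y) (hupd y hy1 hyM).1
    rw [XX_update, update_self] at h2
    exact h2
  have hF1 := hFy ρ ρ3 hρM
  have hF2 := hFy τ τ3 hτM
  have hF2b := hFb t ht (update b i τ) M (hupd τ τ3 hτM).1 (hupd τ τ3 hτM).2
  have hF1b := hFb t ht (update b i ρ) M (hupd ρ ρ3 hρM).1 (hupd ρ ρ3 hρM).2
  have hF0b := hFb t ht b M hb hbM
  rw [← hd, hprod] at hF2b hF1b
  rw [← hd, hprod0] at hF0b
  rw [← hx] at hF0b hF1b hF2b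
  have hL1 : 1 ≤ x ^ (γ / 2) := Real.one_le_rpow hx1 (by linarith)
  have hν0 : 0 ≤ x ^ (-(γ / 2)) := Real.rpow_nonneg hx0.le _
  have hBE : 0 < (b i : ℝ) ^ (d * e) := pow_pos (by linarith) _
  have hρE : 0 < (ρ : ℝ) ^ (d * e) := pow_pos (by linarith) _
  by_cases hcase : CL * ((cc * σ : ℕ) : ℝ) ≤ ρ
  · set ε : ℝ := CL * (((cc * σ : ℕ) : ℝ) / ρ) with hε
    have hε0 : 0 ≤ ε := by positivity
    have hε1 : ε ≤ 1 := by
      rw [hε, mul_div_assoc', div_le_one (by linarith)]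
      exact hcase
    set Gg : ℝ := ((ρ : ℝ) / σ) ^ (d * e) * ((σ : ℝ) / τ) ^ (d * (e - 1)) with hGg
    have hG0 : 0 ≤ Gg := by positivity
    have hEE : d * e = d * m' + d * p := by rw [hemp]; ring
    have hpt : ∀ z ∈ X, |(nuU c G I t i z (b i) : ℝ) * (ρ : ℝ) ^ (d * e) -
          (nuU c G I t i z ρ : ℝ) * (b i : ℝ) ^ (d * e)| ≤
          ε * ((nuU c G I t i z ρ : ℝ) * (b i : ℝ) ^ (d * e)) +
            3 * D * (ρ : ℝ) ^ (d * m') * (b i : ℝ) ^ (d * e) ∨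
        |(nuU c G I t i z (b i) : ℝ) * (ρ : ℝ) ^ (d * e) -
          (nuU c G I t i z ρ : ℝ) * (b i : ℝ) ^ (d * e)| ≤
          2 * A * (b i : ℝ) ^ (d * e) * Gg *
            ((nuU c G I t i z τ : ℝ) + D * (τ : ℝ) ^ (d * m')) := by
      intro z hz
      obtain ⟨hfr, hUN⟩ := hfib z hz
      have hfr' : Module.finrank K (VV c z i) = e := by omega
      obtain ⟨u0, v0⟩ := hUN (b i) (hb i)
      obtain ⟨u1, v1⟩ := hUN ρ ρ3
      obtain ⟨u2, v2⟩ := hUN τ τ3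
      by_cases hgood : VV c z i ≤
          Submodule.span K {y : Fin (n i + 1) → K | y ∈ VV c z i ∧ y ∈ bx K (n i + 1) (cc * σ)}
      · left
        have h2 := hLat (t i) (ht i) (VV c z i) (cc * σ) ρ (b i) hfr'
          (Nat.mul_pos hc1 σ3) hgood hcase hρb
        exact good_step hEE rρ rB hD hε1 hε0 (by exact_mod_cast u0) v0 (by exact_mod_cast u1) v1 h2
      · right
        have h2 := hBad (t i) (ht i) (VV c z i) hfr' τ σ τ3 hτσ hgood (b i) (hσρ.trans hρb)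
        have h3 := hBad (t i) (ht i) (VV c z i) hfr' τ σ τ3 hτσ hgood ρ hσρ
        exact bad_step (by linarith) (by linarith) (by linarith) (by linarith) (by linarith)
          (Nat.cast_nonneg _) (Nat.cast_nonneg _) (by exact_mod_cast u0) (by exact_mod_cast u1)
          v2 h2 h3
    have hsum := sum_step X (fun z => (nuU c G I t i z (b i) : ℝ))
      (fun z => (nuU c G I t i z ρ : ℝ)) (fun z => (nuU c G I t i z τ : ℝ))
      (fun z _ => Nat.cast_nonneg _) (fun z _ => Nat.cast_nonneg _)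
      (by linarith : (0 : ℝ) < ρ) (by linarith : (0 : ℝ) < b i) (by linarith : (0 : ℝ) < τ)
      hD (by linarith : 0 ≤ A) hε0 hG0 hpt
    have c0' : ((FFg c G I t b).card : ℝ) = ∑ z ∈ X, (nuU c G I t i z (b i) : ℝ) := by
      rw [hF0]; push_cast; rfl
    have c1' : ((FFg c G I t (update b i ρ)).card : ℝ) = ∑ z ∈ X, (nuU c G I t i z ρ : ℝ) := by
      rw [hF1]; push_cast; rfl
    have c2' : ((FFg c G I t (update b i τ)).card : ℝ) = ∑ z ∈ X, (nuU c G I t i z τ : ℝ) := by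
      rw [hF2]; push_cast; rfl
    rw [← c0', ← c1', ← c2'] at hsum
    -- the number of the fibres
    have hX' : (X.card : ℝ) ≤ D * (P * Q) := by
      refine hX.trans (le_of_eq ?_)
      congr 1
      rw [hP, hQ, ← Finset.prod_mul_distrib]
      refine Finset.prod_congr rfl fun l _ => ?_
      rw [← pow_add, ← mul_add]
      congr 2
      have := hrn l
      omega
    have hQx : Q ≤ (x ^ q) ^ d := by
      have h2 : Q ≤ ∏ _l ∈ univ.erase i, x ^ (d * k) := by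
        refine Finset.prod_le_prod (fun l _ => by positivity) fun l _ => ?_
        have : (b l : ℝ) ≤ x := by rw [hx]; exact_mod_cast hbM l
        exact pow_le_pow_left₀ (Nat.cast_nonneg _) this _
      rw [Finset.prod_const, Finset.card_erase_of_mem (mem_univ i), Finset.card_univ, ← hsd] at h2
      refine h2.trans (le_of_eq ?_)
      rw [← pow_mul, ← pow_mul, hq]
      congr 1
      ring
    have hμ0 : 0 ≤ x ^ (-γ) := Real.rpow_nonneg hx0.le _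
    have hμ1 : x ^ (-γ) ≤ 1 := Real.rpow_le_one_of_one_le_of_nonpos hx1 (by linarith)
    have hμd : (x ^ (-γ)) ^ d ≤ x ^ (-γ) := pow_le_of_le_one hμ0 hμ1 (by omega)
    have h2 : Q * (ρ : ℝ) ^ (d * m') ≤ x ^ (-γ) * (ρ : ℝ) ^ (d * e) := by
      have g1 : x ^ q ≤ (ρ : ℝ) ^ p * x ^ (-γ) :=
        pow_scale hx1 hαp hγ.le hp1 (σ1.trans (by exact_mod_cast hσρ))
      have g2 : Q ≤ x ^ (-γ) * (ρ : ℝ) ^ (d * p) := by
        calc Q ≤ (x ^ q) ^ d := hQx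
          _ ≤ ((ρ : ℝ) ^ p * x ^ (-γ)) ^ d := pow_le_pow_left₀ (by positivity) g1 _
          _ = (ρ : ℝ) ^ (d * p) * (x ^ (-γ)) ^ d := by
              rw [mul_pow, ← pow_mul, mul_comm p d]
          _ ≤ (ρ : ℝ) ^ (d * p) * x ^ (-γ) := mul_le_mul_of_nonneg_left hμd (by positivity)
          _ = x ^ (-γ) * (ρ : ℝ) ^ (d * p) := mul_comm _ _
      rw [hEE, pow_add]
      calc Q * (ρ : ℝ) ^ (d * m') ≤ x ^ (-γ) * (ρ : ℝ) ^ (d * p) * (ρ : ℝ) ^ (d * m') :=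
            mul_le_mul_of_nonneg_right g2 (by positivity)
        _ = _ := by ring
    have h3 : Q * (τ : ℝ) ^ (d * m') ≤ (τ : ℝ) ^ (d * e) := by
      have g1 : x ^ q ≤ (τ : ℝ) ^ p * x ^ (-(0 : ℝ)) :=
        pow_scale hx1 hαp le_rfl hp1 (by rw [add_zero]; exact τ1)
      rw [neg_zero, Real.rpow_zero, mul_one] at g1
      have g2 : Q ≤ (τ : ℝ) ^ (d * p) := by
        calc Q ≤ (x ^ q) ^ d := hQx
          _ ≤ ((τ : ℝ) ^ p) ^ d := pow_le_pow_left₀ (by positivity) g1 _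
          _ = (τ : ℝ) ^ (d * p) := by rw [← pow_mul, mul_comm p d]
      rw [hEE, pow_add, mul_comm ((τ : ℝ) ^ (d * m'))]
      exact mul_le_mul_of_nonneg_right g2 (by positivity)
    have h4 : Gg * (τ : ℝ) ^ (d * e) ≤ 2 ^ d * (ρ : ℝ) ^ (d * e) * x ^ (-γ) := by
      have g1 : Gg * (τ : ℝ) ^ (d * e) = (ρ : ℝ) ^ (d * e) * ((τ : ℝ) / σ) ^ d := by
        have hee : d * e = d * (e - 1) + d := by
          obtain ⟨e', he'⟩ : ∃ e', e = e' + 1 := ⟨e - 1, by omega⟩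
          rw [he']
          simp only [Nat.add_sub_cancel]
          ring
        have nσ : (σ : ℝ) ≠ 0 := by linarith
        have nτ : (τ : ℝ) ≠ 0 := by linarith
        rw [hGg, hee, div_pow, div_pow, div_pow]
        simp only [pow_add]
        field_simp
      have g2 : ((τ : ℝ) / σ) ^ d ≤ 2 ^ d * x ^ (-γ) := by
        have g3 := ratio_le (θ' := α) (θ := α + γ) (γ := γ) hx1 rfl τ2 σ1
        calc ((τ : ℝ) / σ) ^ d ≤ (2 * x ^ (-γ)) ^ d := pow_le_pow_left₀ (by positivity) g3 _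
          _ = 2 ^ d * (x ^ (-γ)) ^ d := mul_pow _ _ _
          _ ≤ 2 ^ d * x ^ (-γ) := mul_le_mul_of_nonneg_left hμd (by positivity)
      rw [g1]
      calc (ρ : ℝ) ^ (d * e) * ((τ : ℝ) / σ) ^ d ≤ (ρ : ℝ) ^ (d * e) * (2 ^ d * x ^ (-γ)) :=
            mul_le_mul_of_nonneg_left g2 hρE.le
        _ = _ := by ring
    have h5 : ε ≤ 2 * CL * cc * x ^ (-γ) := by
      have g1 := ratio_le (θ' := α + γ) (θ := α + 2 * γ) (γ := γ) hx1 (by ring) σ2 ρ1
      have g2 : 0 ≤ CL * (cc : ℝ) := by positivity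
      have g3 := mul_le_mul_of_nonneg_left g1 g2
      rw [hε]
      push_cast
      calc CL * ((cc : ℝ) * σ / ρ) = CL * cc * ((σ : ℝ) / ρ) := by ring
        _ ≤ CL * cc * (2 * x ^ (-γ)) := g3
        _ = _ := by ring
    have h6 : x ^ (-γ) * x ^ (γ / 2) ≤ x ^ (-(γ / 2)) := by
      rw [← Real.rpow_add hx0]
      exact le_of_eq (by congr 1; ring)
    have hfin := final_step (by linarith : (0 : ℝ) < ρ) (by linarith : (0 : ℝ) < b i)
      (by linarith : (0 : ℝ) < τ) hP0 (Nat.cast_nonneg _) hH hD (by linarith : 0 ≤ A) hG0 hL1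
      (by positivity : 0 ≤ 2 * CL * (cc : ℝ)) (by positivity : (0 : ℝ) ≤ 2 ^ d) hμ0 hX' hF2b h2 h3
      h4 h5 h6 hsum
    refine hfin.trans ?_
    have g1 : 0 ≤ 2 * H * (2 * CL * cc) * (x ^ (-(γ / 2)) * ((b i : ℝ) ^ (d * e) *
        (((FFg c G I t (update b i ρ)).card : ℝ) + (ρ : ℝ) ^ (d * e) * P))) :=
      mul_nonneg (mul_nonneg (by linarith) (mul_nonneg (by linarith) (by linarith)))
        (mul_nonneg hν0 (mul_nonneg hBE.le (add_nonneg (Nat.cast_nonneg _)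
          (mul_nonneg hρE.le hP0))))
    linarith
  · -- small `M`
    push Not at hcase
    have k1 : x ^ γ ≤ 2 * CL * cc := by
      have k2 : x ^ (α + 2 * γ) ≤ 2 * CL * cc * x ^ (α + γ) := by
        push_cast at hcase
        have : CL * (cc * (σ : ℝ)) ≤ CL * (cc * (2 * x ^ (α + γ))) := by
          have h0 : 0 ≤ CL * cc := by positivity
          nlinarith
        nlinarith
      have k3 : x ^ (α + 2 * γ) = x ^ γ * x ^ (α + γ) := by
        rw [← Real.rpow_add hx0]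
        congr 1
        ring
      rw [k3] at k2
      exact le_of_mul_le_mul_right k2 (Real.rpow_pos_of_pos hx0 _)
    have k4 : x ^ (γ / 2) ≤ 2 * CL * cc * x ^ (-(γ / 2)) := by
      have : x ^ (γ / 2) = x ^ γ * x ^ (-(γ / 2)) := by
        rw [← Real.rpow_add hx0]
        congr 1
        ring
      rw [this]
      exact mul_le_mul_of_nonneg_right k1 hν0
    have hF00 : (0 : ℝ) ≤ ((FFg c G I t b).card : ℝ) := Nat.cast_nonneg _
    have hF10 : (0 : ℝ) ≤ ((FFg c G I t (update b i ρ)).card : ℝ) := Nat.cast_nonneg _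
    generalize ((FFg c G I t b).card : ℝ) = F0 at *
    generalize ((FFg c G I t (update b i ρ)).card : ℝ) = F1 at *
    generalize x ^ (γ / 2) = Lx at *
    generalize x ^ (-(γ / 2)) = νx at *
    have g1 : F0 * (ρ : ℝ) ^ (d * e) ≤ H * Lx * ((b i : ℝ) ^ (d * e) * ((ρ : ℝ) ^ (d * e) * P)) := by
      have := mul_le_mul_of_nonneg_right hF0b hρE.le
      linarith
    have g2 : F1 * (b i : ℝ) ^ (d * e) ≤ H * Lx * ((b i : ℝ) ^ (d * e) * ((ρ : ℝ) ^ (d * e) * P)) := by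
      have := mul_le_mul_of_nonneg_right hF1b hBE.le
      linarith
    have g3 : 0 ≤ (b i : ℝ) ^ (d * e) * ((ρ : ℝ) ^ (d * e) * P) := by positivity
    have g4 : H * Lx * ((b i : ℝ) ^ (d * e) * ((ρ : ℝ) ^ (d * e) * P)) ≤
        H * (2 * CL * cc * νx) * ((b i : ℝ) ^ (d * e) * ((ρ : ℝ) ^ (d * e) * P)) :=
      mul_le_mul_of_nonneg_right (mul_le_mul_of_nonneg_left k4 hH) g3
    have g5 : 0 ≤ F0 * (ρ : ℝ) ^ (d * e) := mul_nonneg hF00 hρE.le
    have g6 : 0 ≤ F1 * (b i : ℝ) ^ (d * e) := mul_nonneg hF10 hBE.le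
    have g7 : 0 ≤ (2 * CL * cc + 3 * D ^ 2 + 2 * A * 2 ^ d * (H + D ^ 2)) * νx *
        ((b i : ℝ) ^ (d * e) * (F1 + (ρ : ℝ) ^ (d * e) * P)) := by positivity
    have g8 : 0 ≤ 2 * H * (2 * CL * cc) * νx * ((b i : ℝ) ^ (d * e) * F1) := by positivity
    rw [abs_le]
    constructor <;> linarith

/-- **EO-ST.** -/
theorem st (hLAT : S_LAT) (hFIB : S_FIB) (hDB : S_DB) : S_ST := by
  intro K _ _ ι _ _ n k r c G I c0 hs hk hr hrn hT hI h1 hW
  have hks : k * Fintype.card ι = k * (Fintype.card ι - 1) + k := by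
    obtain ⟨s', hs'⟩ : ∃ s', Fintype.card ι = s' + 1 := ⟨Fintype.card ι - 1, by omega⟩
    rw [hs']
    simp only [Nat.add_sub_cancel]
    ring
  have hqp : k * (Fintype.card ι - 1) + 1 ≤ r - k := by omega
  obtain ⟨α, hα0, hα1, hαp⟩ : ∃ α : ℝ, 0 ≤ α ∧ α < 1 ∧
      α * ((r - k : ℕ) : ℝ) = ((k * (Fintype.card ι - 1) : ℕ) : ℝ) := by
    generalize k * (Fintype.card ι - 1) = q at hqp
    generalize r - k = p at hqp
    have h2 : (0 : ℝ) < p := by
      have : 0 < p := by omega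
      exact_mod_cast this
    refine ⟨(q : ℝ) / p, by positivity, ?_, div_mul_cancel₀ _ h2.ne'⟩
    rw [div_lt_one h2]
    have : q < p := by omega
    exact_mod_cast this
  have hγ : 0 < (1 - α) / 3 := by linarith
  choose C hC0 hC using fun i => st_fix hLAT hFIB hDB k r c G I c0 hs hk hr hrn hT hI h1 hW α
    ((1 - α) / 3) hα0 hγ hαp i
  refine ⟨α + 2 * ((1 - α) / 3), (1 - α) / 3 / 2, ∑ i, C i, by linarith, by linarith,
    by linarith, Finset.sum_nonneg fun i _ => hC0 i, ?_⟩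
  intro t ht b M i hb hbM hρ
  refine (hC i t ht b M hb hbM hρ).trans ?_
  have h2 : C i ≤ ∑ i, C i := Finset.single_le_sum (f := C) (fun j _ => hC0 j) (mem_univ i)
  refine mul_le_mul_of_nonneg_right (mul_le_mul_of_nonneg_right h2 ?_) ?_
  · exact Real.rpow_nonneg (Nat.cast_nonneg M) _
  · have h3 : 0 ≤ ∏ l, ((update b i ⌈(M : ℝ) ^ (α + 2 * ((1 - α) / 3))⌉₊ l : ℕ) : ℝ) ^
        (dg K * (n l + 1 - k)) := Finset.prod_nonneg fun l _ => by positivity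
    positivity

end Pool.Agent.Q26.EO
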